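import Mathlib
import Pool.Agent.R361.LKD.Main

/-!
# If an `(l, k, d)`-set exists then a self-similar one exists

Definitions (in `Pool/Agent/R361/LKD/Main.lean`), for subsets of `ℝ^d` with the Euclidean norm:
* `cube d` is `[0, 1]^d`, `sumset l K` is the set of the sums of `l` elements of `K`;
* `IsLKD l k d K`: `K` is compact, contained in the cube, meets every affine subspace with
  `k`-dimensional direction which meets the cube, and `sumset l K` is nowhere dense;
* `SelfSimilar K`: `K` is nonempty, compact, and the union of its images under finitely many
  maps `f i` with `dist (f i x) (f i y) = r i * dist x y`, `0 < r i < 1`.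

Proof (found by helper270). The sumset `l K` and its integer translates miss some ball `B(z, ρ)` in the
open unit cube. For `n > (l + 2) / ρ` let `D` be the set of the digits `a` such that the cube
`(a + [0,1]^d) / n` meets `K`, and let `K'` be the set of all `∑ a_j n^{-j-1}` with digits in `D`. It is
self-similar. A plane which meets the cube contains a point of `K`, in the cube of the digit `a` say,
and is moved by `x ↦ n x - a` to another such plane; iteration shows that it meets `K'`. The points of
`K'` are within `1 / n` of points of `K` at every scale, so `l K'` has a hole in every cube of the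
`n`-adic grids.
-/

set_option autoImplicit false

namespace Pool.Agent.Results.MP_ab9b99_an.SelfSimilarSets

open Pool.Agent.R361.LKD

/-- For all positive integers `l`, `k`, `d` with `k ≤ d`: if an `(l, k, d)`-set exists, then a
self-similar `(l, k, d)`-set exists. -/
theorem result (l k d : ℕ) (_hl : 0 < l) (_hk : 0 < k) (hkd : k ≤ d)
    (hK : ∃ K : Set (EuclideanSpace ℝ (Fin d)), IsLKD l k d K) :
    ∃ K : Set (EuclideanSpace ℝ (Fin d)), IsLKD l k d K ∧ SelfSimilar K :=
  main l k d hkd hK

end Pool.Agent.Results.MP_ab9b99_an.SelfSimilarSets
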